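import Pool.Agent.W712.WR.All

/-!
Uniform persistence and boundedness of absolutely continuous solutions of variable-k weakly
reversible systems.
-/

set_option autoImplicit false

namespace Pool.Agent.Results.MP_1be7de_an.UniformPersistence

/-- The right-hand side of the system generated by the edge set `E` (an edge is a pair
(source, target) of real vectors) with the rates `k`, at the point `x`. -/
noncomputable def field {n : ℕ} (E : Finset ((Fin n → ℝ) × (Fin n → ℝ)))
    (k : (Fin n → ℝ) × (Fin n → ℝ) → ℝ) (x : Fin n → ℝ) : Fin n → ℝ :=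
  ∑ e ∈ E, (k e * ∏ i, x i ^ (e.1 i)) • (e.2 - e.1)

/-- Every edge of `E` lies on a directed cycle: its source can be reached from its target. -/
def WeaklyReversible {n : ℕ} (E : Finset ((Fin n → ℝ) × (Fin n → ℝ))) : Prop :=
  ∀ e ∈ E, Relation.ReflTransGen (fun u v => (u, v) ∈ E) e.2 e.1

/-- `x` is a solution on `J` of the variable-`k` system: positive, absolutely continuous on the
compact subintervals, and satisfying the differential equation at almost every time of `J`. -/
structure IsSolution {n : ℕ} (E : Finset ((Fin n → ℝ) × (Fin n → ℝ)))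
    (k : (Fin n → ℝ) × (Fin n → ℝ) → ℝ → ℝ) (x : ℝ → Fin n → ℝ) (J : Set ℝ) : Prop where
  pos : ∀ t ∈ J, ∀ i, 0 < x t i
  ac : ∀ a ∈ J, ∀ b ∈ J, a ≤ b → AbsolutelyContinuousOnInterval x a b
  ode : ∀ᵐ t, t ∈ J → HasDerivAt x (field E (fun e => k e t) (x t)) t

/-- For every finite weakly reversible edge set in `ℝⁿ`, every `ε > 0` and every box `[m, K]ⁿ` with
`m > 0` there are `0 < m'` and `M'` such that for ALL rate functions with values in `[ε, 1/ε]`
every absolutely continuous solution on an interval `J ∋ 0` with initial value in the box has all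
coordinates in `[m', M']` at all nonnegative times of `J`. -/
theorem result (n : ℕ) (E : Finset ((Fin n → ℝ) × (Fin n → ℝ))) (hE : WeaklyReversible E)
    (ε : ℝ) (hε : 0 < ε) (m K : ℝ) (hm : 0 < m) :
    ∃ m' M' : ℝ, 0 < m' ∧
      ∀ k : (Fin n → ℝ) × (Fin n → ℝ) → ℝ → ℝ, (∀ e ∈ E, ∀ t : ℝ, ε ≤ k e t ∧ k e t ≤ 1 / ε) →
      ∀ (J : Set ℝ) (x : ℝ → Fin n → ℝ), J.OrdConnected → (0 : ℝ) ∈ J → IsSolution E k x J →
        (∀ i, m ≤ x 0 i ∧ x 0 i ≤ K) → ∀ t ∈ J, 0 ≤ t → ∀ i, m' ≤ x t i ∧ x t i ≤ M' := by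
  obtain ⟨m', M', hm', H⟩ :=
    W712.WR.uniform_ac W712.WR.field' W712.WR.noExitAC' n E hE ε hε m K hm
  exact ⟨m', M', hm', fun k hk J x hJ h0 hx => H k hk J x hJ h0 ⟨hx.pos, hx.ac, hx.ode⟩⟩

end Pool.Agent.Results.MP_1be7de_an.UniformPersistence
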